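import Pool.Agent.Helper43_HAM.Stmts

/-!
# ISO: isomorphism invariance of the graph notions of the squad HAM (MP_f63292_lc)
-/

namespace Pool.Agent.HAM.H7

open Equiv

variable {V W : Type} {G : SimpleGraph V} {G' : SimpleGraph W}

theorem nbr_image (e : G ≃g G') (v : V) : G'.neighborSet (e v) = e '' G.neighborSet v := by
  ext w
  simp only [SimpleGraph.mem_neighborSet, Set.mem_image]
  constructor
  · intro h
    refine ⟨e.symm w, ?_, e.apply_symm_apply w⟩
    rw [← e.map_adj_iff, e.apply_symm_apply]
    exact h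
  · rintro ⟨u, hu, rfl⟩
    exact e.map_adj_iff.2 hu

theorem ncard_nbr (e : G ≃g G') (v : V) :
    (G'.neighborSet (e v)).ncard = (G.neighborSet v).ncard := by
  rw [nbr_image, Set.ncard_image_of_injective _ e.injective]

/-- the comap along the inverse is isomorphic to the graph -/
def comapIso (f : V ≃ W) (H : SimpleGraph V) : H ≃g H.comap f.symm where
  toEquiv := f
  map_rel_iff' := by
    intro a b
    simp

theorem hamCount_iso (e : G ≃g G') : hamCount G = hamCount G' := by
  unfold hamCount
  refine Nat.card_congr (Equiv.subtypeEquiv e.toEquiv.simpleGraph ?_)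
  intro H
  show _ ↔ (H.comap e.toEquiv.symm ≤ G' ∧ (H.comap e.toEquiv.symm).Connected ∧
    ∀ v, ((H.comap e.toEquiv.symm).neighborSet v).ncard = 2)
  have h1 : H ≤ G ↔ H.comap e.toEquiv.symm ≤ G' := by
    constructor
    · intro h a b hab
      have h2 : G.Adj (e.symm a) (e.symm b) := h hab
      have h3 := e.map_adj_iff.2 h2
      rwa [e.apply_symm_apply, e.apply_symm_apply] at h3
    · intro h a b hab
      rw [← e.map_adj_iff]
      refine h ?_
      show H.Adj (e.symm (e a)) (e.symm (e b))
      rwa [e.symm_apply_apply, e.symm_apply_apply]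
  have h2 : H.Connected ↔ (H.comap e.toEquiv.symm).Connected :=
    (comapIso e.toEquiv H).connected_iff
  have h3 : (∀ v, (H.neighborSet v).ncard = 2) ↔
      ∀ v, ((H.comap e.toEquiv.symm).neighborSet v).ncard = 2 := by
    constructor
    · intro h w
      have := ncard_nbr (comapIso e.toEquiv H) (e.symm w)
      rw [h] at this
      have h4 : (comapIso e.toEquiv H) (e.symm w) = w := e.apply_symm_apply w
      rw [h4] at this
      exact this
    · intro h v
      rw [← ncard_nbr (comapIso e.toEquiv H) v]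
      exact h _
  rw [h1, h2, h3]

theorem cubic_iso (e : G ≃g G') (h : IsCubic G) : IsCubic G' := by
  intro w
  have := ncard_nbr e (e.symm w)
  rw [e.apply_symm_apply, h] at this
  exact this

theorem bip_iso (e : G ≃g G') (h : IsBip G) : IsBip G' := by
  obtain ⟨c, hc⟩ := h
  refine ⟨fun w => c (e.symm w), fun u v huv => hc _ _ ?_⟩
  exact e.symm.map_adj_iff.2 huv

theorem three_iso (e : G ≃g G') (h : ThreeConnected G) : ThreeConnected G' := by
  obtain ⟨h4, hs⟩ := h
  refine ⟨by rwa [← Nat.card_congr e.toEquiv], fun s hcard => ?_⟩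
  have h1 := hs (s.map e.symm.toEquiv.toEmbedding) (by rwa [Finset.card_map])
  have hb : Set.BijOn e {v | v ∉ s.map e.symm.toEquiv.toEmbedding} {v | v ∉ s} := by
    refine ⟨?_, e.injective.injOn, ?_⟩
    · intro v hv hmem
      apply hv
      rw [Finset.mem_map]
      exact ⟨e v, hmem, e.symm_apply_apply v⟩
    · intro w hw
      refine ⟨e.symm w, ?_, e.apply_symm_apply w⟩
      intro hmem
      rw [Finset.mem_map] at hmem
      obtain ⟨u, hu, huw⟩ := hmem
      have : u = w := e.symm.injective huw
      exact hw (this ▸ hu)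
  exact (e.induce hb).connected_iff.1 h1

/-- transport of darts -/
def dartEquiv (e : G ≃g G') : G.Dart ≃ G'.Dart where
  toFun d := ⟨(e d.fst, e d.snd), e.map_adj_iff.2 d.adj⟩
  invFun d := ⟨(e.symm d.fst, e.symm d.snd), e.symm.map_adj_iff.2 d.adj⟩
  left_inv d := by
    ext <;> simp
  right_inv d := by
    ext <;> simp

theorem dartSymm_conj (e : G ≃g G') :
    dartSymm G' = (dartEquiv e).permCongrHom (dartSymm G) := by
  refine Equiv.ext fun d => ?_
  ext <;> simp [dartSymm, dartEquiv, Equiv.permCongrHom]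

theorem sameCycle_conj {D D' : Type} (f : D ≃ D') (π : Perm D) (a b : D) :
    (f.permCongrHom π).SameCycle (f a) (f b) ↔ π.SameCycle a b := by
  unfold Perm.SameCycle
  refine exists_congr fun i => ?_
  rw [← map_zpow]
  simp [Equiv.permCongrHom]

theorem cyc_conj {D D' : Type} (f : D ≃ D') (π : Perm D) :
    cyc (f.permCongrHom π) = cyc π := by
  unfold cyc
  refine (Nat.card_congr (Quotient.congr f ?_)).symm
  intro a b
  exact (sameCycle_conj f π a b).symm

theorem edge_iso (e : G ≃g G') : G'.edgeSet.ncard = G.edgeSet.ncard :=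
  (Nat.card_congr e.mapEdgeSet).symm

theorem planar_iso (e : G ≃g G') (h : IsPlanar G) : IsPlanar G' := by
  obtain ⟨ρ, h1, h2, h3⟩ := h
  refine ⟨(dartEquiv e).permCongrHom ρ, ?_, ?_, ?_⟩
  · intro d
    have : ((dartEquiv e).permCongrHom ρ d) = dartEquiv e (ρ ((dartEquiv e).symm d)) := rfl
    rw [this]
    show e (ρ ((dartEquiv e).symm d)).fst = d.fst
    rw [h1]
    exact e.apply_symm_apply _
  · intro d d' hd
    have h4 := h2 ((dartEquiv e).symm d) ((dartEquiv e).symm d') (by
      show e.symm d.fst = e.symm d'.fst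
      rw [hd])
    have h5 := (sameCycle_conj (dartEquiv e) ρ _ _).2 h4
    rwa [Equiv.apply_symm_apply, Equiv.apply_symm_apply] at h5
  · rw [dartSymm_conj e, ← map_mul, cyc_conj, edge_iso e, ← Nat.card_congr e.toEquiv, h3]

theorem iso : IsoStmt := by
  rintro V W G G' ⟨e⟩
  exact ⟨hamCount_iso e, cubic_iso e, bip_iso e, three_iso e, planar_iso e⟩

end Pool.Agent.HAM.H7
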